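import Pool.Agent.Helper62.LH.StA

/-!
# Project LH, module DIV: the divergence theorem with weight
-/

set_option autoImplicit false

open Set Filter Topology MeasureTheory

noncomputable section

namespace Pool.Agent.Helper95.LH

open Helper62.LH

/-- the integral of a derivative of a `C¹` function with compact support is zero -/
theorem int_fderiv_zero {n : ℕ} (u : E n → ℝ) (hu : ContDiff ℝ 1 u) (hc : HasCompactSupport u)
    (v : E n) : ∫ x, fderiv ℝ u x v = 0 := by
  have h1 : Continuous (fun x => fderiv ℝ u x v) :=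
    (hu.continuous_fderiv one_ne_zero).clm_apply continuous_const
  have h2 : HasCompactSupport (fun x => fderiv ℝ u x v) := hc.fderiv_apply (𝕜 := ℝ) v
  have h3 : Integrable (fun x => fderiv ℝ u x v) := h1.integrable_of_hasCompactSupport h2
  have h4 : Integrable u := hu.continuous.integrable_of_hasCompactSupport hc
  have h5 := integral_mul_fderiv_eq_neg_fderiv_mul_of_integrable (μ := (volume : Measure (E n)))
    (f := fun _ : E n => (1 : ℝ)) (g := u) (v := v) (by simp) (by simpa using h3)
    (by simpa using h4) (fun x _ => differentiableAt_const (1 : ℝ))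
    (fun x _ => (hu.differentiable one_ne_zero) x)
  simpa using h5

theorem sum_ee {n : ℕ} (y : E n) : ∑ i, y i • (ee i : E n) = y := by
  ext j
  simp [ee, Finset.sum_apply, Pi.single_apply]

/-- Divergence theorem with weight. -/
theorem hDiv (hChr : StChr) (hDlv : StDlv) : StDiv := by
  intro n g Γ hg hΓ f hf Y hY hYc
  obtain ⟨-, hsym, -⟩ := hChr n g Γ hg hΓ
  obtain ⟨hvs, -, hvd⟩ := hDlv n g Γ hg hΓ
  have hfd : ∀ x, DifferentiableAt ℝ f x := fun x => (hf.differentiable (by simp)) x
  have hvolD : ∀ x, DifferentiableAt ℝ (vol g) x := fun x => (hvs.differentiable (by simp)) x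
  have hYd : ∀ x, DifferentiableAt ℝ Y x := fun x => (hY.differentiable one_ne_zero) x
  set w : E n → ℝ := fun x => Real.exp (-f x) * vol g x with hw
  have hws : ContDiff ℝ 1 w := by
    have h1 : ContDiff ℝ 1 f := hf.of_le (by exact_mod_cast le_top)
    have h2 : ContDiff ℝ 1 (vol g) := hvs.of_le (by exact_mod_cast le_top)
    exact (Real.contDiff_exp.comp h1.neg).mul h2
  have hwd : ∀ x, DifferentiableAt ℝ w x := fun x => (hws.differentiable one_ne_zero) x
  have hwf : ∀ x v, fderiv ℝ w x v = w x * (-(fderiv ℝ f x v) + ∑ j, (Γ x v (ee j)) j) := by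
    intro x v
    have he : HasFDerivAt (fun y => Real.exp (-f y)) (Real.exp (-f x) • (-(fderiv ℝ f x))) x :=
      (hfd x).hasFDerivAt.neg.exp
    have h1 : HasFDerivAt w (Real.exp (-f x) • fderiv ℝ (vol g) x +
        vol g x • (Real.exp (-f x) • (-(fderiv ℝ f x)))) x :=
      he.mul (hvolD x).hasFDerivAt
    rw [h1.fderiv]
    simp only [ContinuousLinearMap.add_apply, ContinuousLinearMap.smul_apply,
      ContinuousLinearMap.neg_apply, smul_eq_mul, hvd, hw]
    ring
  have hYi : ∀ (i : Fin n), ContDiff ℝ 1 (fun y => (Y y) i) := fun i =>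
    (EuclideanSpace.proj (𝕜 := ℝ) i : E n →L[ℝ] ℝ).contDiff.comp hY
  have hYif : ∀ (i : Fin n) x v, fderiv ℝ (fun y => (Y y) i) x v = (fderiv ℝ Y x v) i := by
    intro i x v
    have h1 : HasFDerivAt (fun y => (Y y) i)
        ((EuclideanSpace.proj (𝕜 := ℝ) i : E n →L[ℝ] ℝ).comp (fderiv ℝ Y x)) x :=
      (EuclideanSpace.proj (𝕜 := ℝ) i : E n →L[ℝ] ℝ).hasFDerivAt.comp x (hYd x).hasFDerivAt
    rw [h1.fderiv]
    simp
  have hui : ∀ (i : Fin n), ContDiff ℝ 1 (fun y => w y * (Y y) i) := fun i => hws.mul (hYi i)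
  have huc : ∀ (i : Fin n), HasCompactSupport (fun y => w y * (Y y) i) := by
    intro i
    have h1 : HasCompactSupport (fun y => (Y y) i) :=
      hYc.comp_left (g := fun z : E n => z i) (by simp)
    exact h1.mul_left
  have huf : ∀ (i : Fin n) x, fderiv ℝ (fun y => w y * (Y y) i) x (ee i) =
      w x * (fderiv ℝ Y x (ee i)) i + (Y x) i * fderiv ℝ w x (ee i) := by
    intro i x
    have h1 : DifferentiableAt ℝ (fun y => (Y y) i) x := ((hYi i).differentiable one_ne_zero) x
    rw [fderiv_fun_mul (hwd x) h1]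
    simp only [ContinuousLinearMap.add_apply, ContinuousLinearMap.smul_apply, smul_eq_mul, hYif]
  have hint : ∀ x, dvf Γ f Y x * (Real.exp (-f x) * vol g x) =
      ∑ i, fderiv ℝ (fun y => w y * (Y y) i) x (ee i) := by
    intro x
    have h1 : ∑ i, (Y x) i * fderiv ℝ w x (ee i) = fderiv ℝ w x (Y x) := by
      conv_rhs => rw [← sum_ee (Y x)]
      rw [map_sum]
      exact Finset.sum_congr rfl fun i _ => by rw [map_smul, smul_eq_mul]
    simp only [huf]
    rw [Finset.sum_add_distrib, h1, hwf, ← Finset.mul_sum]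
    have h2 : ∑ i, (cX Γ Y x (ee i)) i =
        ∑ i, (fderiv ℝ Y x (ee i)) i + ∑ i, (Γ x (Y x) (ee i)) i := by
      rw [← Finset.sum_add_distrib]
      refine Finset.sum_congr rfl fun i _ => ?_
      unfold cX
      rw [hsym x (Y x) (ee i)]
      simp
    unfold dvf
    rw [h2]
    simp only [hw]
    ring
  calc ∫ x, dvf Γ f Y x * (Real.exp (-f x) * vol g x)
      = ∫ x, ∑ i, fderiv ℝ (fun y => w y * (Y y) i) x (ee i) := by
        congr 1; funext x; exact hint x
    _ = ∑ i, ∫ x, fderiv ℝ (fun y => w y * (Y y) i) x (ee i) := by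
        rw [integral_finset_sum]
        intro i _
        exact (((hui i).continuous_fderiv one_ne_zero).clm_apply
          continuous_const).integrable_of_hasCompactSupport ((huc i).fderiv_apply (𝕜 := ℝ) _)
    _ = 0 := Finset.sum_eq_zero fun i _ => int_fderiv_zero _ (hui i) (huc i) _

end Pool.Agent.Helper95.LH
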