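import Pool.Agent.Helper62.LH.StG

/-!
# Project LH, module DLC: the Riemannian distance defines the topology
-/

set_option autoImplicit false

open Set Filter Topology MeasureTheory

noncomputable section

namespace Pool.Agent.Helper95.LH

open Helper62.LH

/-- the integrand of the length of a `C¹` curve is continuous -/
theorem cont_nr {n : ℕ} (g : E n → Bl n) (hg : IsMet g) (c : ℝ → E n) (hc : ContDiff ℝ 1 c) :
    Continuous (fun t => nr g (c t) (deriv c t)) := by
  have h1 : Continuous (deriv c) := hc.continuous_deriv (le_refl 1)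
  have h2 : Continuous (fun t => g (c t)) := hg.smooth.continuous.comp hc.continuous
  have h3 : Continuous (fun t => g (c t) (deriv c t) (deriv c t)) :=
    (h2.clm_apply h1).clm_apply h1
  exact Real.continuous_sqrt.comp h3

theorem nr_nonneg {n : ℕ} (g : E n → Bl n) (x v : E n) : 0 ≤ nr g x v := Real.sqrt_nonneg _

/-- lower bound for the norm at a point -/
theorem nr_lower {n : ℕ} (hCmp : StCmp) (g : E n → Bl n) (hg : IsMet g) (x : E n) :
    ∃ m0 : ℝ, 0 < m0 ∧ ∀ v, m0 * ‖v‖ ≤ nr g x v := by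
  obtain ⟨m, M, hm, hM, h⟩ := hCmp n g hg {x} isCompact_singleton
  refine ⟨√m, Real.sqrt_pos.2 hm, fun v => ?_⟩
  have h1 := (h x (mem_singleton x) v).1
  have h2 : √m * ‖v‖ = √(m * ‖v‖ ^ 2) := by
    rw [Real.sqrt_mul hm.le, Real.sqrt_sq (norm_nonneg v)]
  rw [h2]
  exact Real.sqrt_le_sqrt h1

/-- DLC part 1 -/
theorem dlc1 (hCmp : StCmp) (hMet : StMet) (hLoc : StLoc) (n : ℕ) (g : E n → Bl n)
    (hg : IsMet g) (x : E n) (r : ℝ) (hr : 0 < r) :
    ∃ δ > 0, ∀ y, dg g x y < δ → ‖y - x‖ < r := by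
  obtain ⟨hM1, hM2, hM3, hM4, hM5, hM6⟩ := hMet n g hg
  obtain ⟨r0, hr0, -, hL⟩ := hLoc n g hg x (1 / 2) (by norm_num) (by norm_num)
  obtain ⟨m0, hm0, hm⟩ := nr_lower hCmp g hg x
  have hr' : 0 < min r (r0 / 2) := lt_min hr (by linarith)
  set r' := min r (r0 / 2) with hr'def
  refine ⟨m0 * r' / 2, by positivity, fun y hy => ?_⟩
  by_contra hcon
  have hcon' : r' ≤ ‖y - x‖ := le_trans (min_le_left _ _) (not_lt.1 hcon)
  obtain ⟨c, hc, hc0, hc1, hlen⟩ := hM2 x y (m0 * r' / 2 - dg g x y) (by linarith)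
  have hlen' : len g c < m0 * r' / 2 := by linarith
  -- intermediate value
  have hcont : ContinuousOn (fun t => ‖c t - x‖) (Icc 0 1) :=
    (continuous_norm.comp (hc.continuous.sub continuous_const)).continuousOn
  have hivt := intermediate_value_Icc (zero_le_one (α := ℝ)) hcont
  have hmem : r' ∈ Icc (‖c 0 - x‖) (‖c 1 - x‖) := by
    rw [hc0, hc1, sub_self, norm_zero]
    exact ⟨hr'.le, hcon'⟩
  obtain ⟨T, hT, hTr⟩ := hivt hmem
  have hTr' : ‖c T - x‖ = r' := hTr
  have hk := cont_nr g hg c hc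
  have h1 : dg g (c 0) (c T) ≤ ∫ τ in (0 : ℝ)..T, nr g (c τ) (deriv c τ) := hM1 c hc 0 T hT.1
  have h2 : ∫ τ in (0 : ℝ)..T, nr g (c τ) (deriv c τ) ≤ len g c := by
    have hadd := intervalIntegral.integral_add_adjacent_intervals
      (hk.intervalIntegrable (μ := volume) 0 T) (hk.intervalIntegrable (μ := volume) T 1)
    have hnn : 0 ≤ ∫ τ in T..1, nr g (c τ) (deriv c τ) :=
      intervalIntegral.integral_nonneg hT.2 (fun t _ => nr_nonneg g _ _)
    unfold len
    linarith
  have hball : c T ∈ Metric.ball x r0 := by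
    rw [Metric.mem_ball, dist_eq_norm, hTr']
    have := min_le_right r (r0 / 2)
    linarith
  have h3 := (hL x (Metric.mem_ball_self hr0) (c T) hball).1
  have h4 := hm (c T - x)
  rw [hTr'] at h4
  rw [hc0] at h1
  linarith

/-- DLC part 3, auxiliary: the distance to nearby points is small -/
theorem dlc_small (hMet : StMet) (hLoc : StLoc) (n : ℕ) (g : E n → Bl n)
    (hg : IsMet g) (x : E n) : Tendsto (fun y => dg g x y) (𝓝 x) (𝓝 0) := by
  obtain ⟨hM1, hM2, hM3, hM4, hM5, hM6⟩ := hMet n g hg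
  obtain ⟨r0, hr0, -, hL⟩ := hLoc n g hg x (1 / 2) (by norm_num) (by norm_num)
  have hc : Continuous (fun y => (1 + 1 / 2 : ℝ) * nr g x (y - x)) := by
    unfold nr
    have : Continuous (fun y => g x (y - x) (y - x)) :=
      ((g x).continuous.comp (continuous_id.sub continuous_const)).clm_apply
        (continuous_id.sub continuous_const)
    exact continuous_const.mul (Real.continuous_sqrt.comp this)
  have h0 : Tendsto (fun y => (1 + 1 / 2 : ℝ) * nr g x (y - x)) (𝓝 x) (𝓝 0) := by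
    have := hc.tendsto x
    simpa [nr] using this
  refine tendsto_of_tendsto_of_tendsto_of_le_of_le' tendsto_const_nhds h0
    (Eventually.of_forall fun y => hM3 x y) ?_
  filter_upwards [Metric.ball_mem_nhds x hr0] with y hy
  exact (hL x (Metric.mem_ball_self hr0) y hy).2

/-- DLC -/
theorem hDlc (hCmp : StCmp) (hMet : StMet) (hLoc : StLoc) : StDlc := by
  intro n g hg
  refine ⟨fun x r hr => dlc1 hCmp hMet hLoc n g hg x r hr, ?_, ?_⟩
  · intro x y hxy
    by_contra hne
    have hpos : 0 < ‖y - x‖ := norm_pos_iff.2 (sub_ne_zero.2 (Ne.symm hne))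
    obtain ⟨δ, hδ, h⟩ := dlc1 hCmp hMet hLoc n g hg x ‖y - x‖ hpos
    exact absurd (h y (by rw [hxy]; exact hδ)) (lt_irrefl _)
  · obtain ⟨hM1, hM2, hM3, hM4, hM5, hM6⟩ := hMet n g hg
    rw [continuous_iff_continuousAt]
    rintro ⟨x, y⟩
    have hx := dlc_small hMet hLoc n g hg x
    have hy := dlc_small hMet hLoc n g hg y
    have hx' : Tendsto (fun q : E n × E n => dg g x q.1) (𝓝 (x, y)) (𝓝 0) :=
      hx.comp (continuous_fst.tendsto (x, y))
    have hy' : Tendsto (fun q : E n × E n => dg g y q.2) (𝓝 (x, y)) (𝓝 0) :=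
      hy.comp (continuous_snd.tendsto (x, y))
    have hsum : Tendsto (fun q : E n × E n => dg g x q.1 + dg g y q.2) (𝓝 (x, y)) (𝓝 0) := by
      simpa using hx'.add hy'
    unfold ContinuousAt
    rw [tendsto_iff_norm_sub_tendsto_zero]
    refine tendsto_of_tendsto_of_tendsto_of_le_of_le tendsto_const_nhds hsum
      (fun q => norm_nonneg _) (fun q => ?_)
    show ‖dg g q.1 q.2 - dg g x y‖ ≤ dg g x q.1 + dg g y q.2
    rw [Real.norm_eq_abs, abs_le]
    have a1 := hM6 q.1 x q.2
    have a2 := hM6 x y q.2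
    have a3 := hM6 x q.1 y
    have a4 := hM6 q.1 q.2 y
    have a5 := hM5 q.1 x
    have a6 := hM5 q.2 y
    constructor <;> linarith

end Pool.Agent.Helper95.LH
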