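import Pool.Agent.Helper62.LH.StA

/-!
# Project LH, module DLF: the weighted divergence in divergence form
-/

set_option autoImplicit false

open Set Filter Topology MeasureTheory

noncomputable section

namespace Pool.Agent.Helper95.LH.DLF

open Helper62.LH

theorem sum_ee {n : ℕ} (y : E n) : ∑ i, y i • (ee i : E n) = y := by
  ext j
  simp [ee, Finset.sum_apply, Pi.single_apply]

theorem comp_ee {n : ℕ} (c : Fin n → ℝ) (j : Fin n) : (∑ i, c i • (ee i : E n)) j = c j := by
  simp [ee, Finset.sum_apply, Pi.single_apply]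

/-- the weighted divergence of a vector field in divergence form -/
theorem dvf_eq {n : ℕ} (hChr : StChr) (hDlv : StDlv) (g : E n → Bl n) (Γ : E n → Bm n)
    (hg : IsMet g) (hΓ : IsChr g Γ) (f : E n → ℝ) (hf : Differentiable ℝ f) (Y : E n → E n)
    (hY : ContDiff ℝ 1 Y) (x : E n) :
    dvf Γ f Y x * (Real.exp (-f x) * vol g x) =
      ∑ i, fderiv ℝ (fun y => (Real.exp (-f y) * vol g y) * (Y y) i) x (ee i) := by
  obtain ⟨-, hsym, -⟩ := hChr n g Γ hg hΓ
  obtain ⟨hvs, -, hvd⟩ := hDlv n g Γ hg hΓ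
  have hfd : DifferentiableAt ℝ f x := hf x
  have hvolD : DifferentiableAt ℝ (vol g) x := (hvs.differentiable (by simp)) x
  have hYd : DifferentiableAt ℝ Y x := (hY.differentiable one_ne_zero) x
  have he : HasFDerivAt (fun y => Real.exp (-f y)) (Real.exp (-f x) • (-(fderiv ℝ f x))) x :=
    hfd.hasFDerivAt.neg.exp
  have hw1 : HasFDerivAt (fun y => Real.exp (-f y) * vol g y)
      (Real.exp (-f x) • fderiv ℝ (vol g) x +
        vol g x • (Real.exp (-f x) • (-(fderiv ℝ f x)))) x := he.mul hvolD.hasFDerivAt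
  have hwf : ∀ v, fderiv ℝ (fun y => Real.exp (-f y) * vol g y) x v =
      (Real.exp (-f x) * vol g x) * (-(fderiv ℝ f x v) + ∑ j, (Γ x v (ee j)) j) := by
    intro v
    rw [hw1.fderiv]
    simp only [ContinuousLinearMap.add_apply, ContinuousLinearMap.smul_apply,
      ContinuousLinearMap.neg_apply, smul_eq_mul, hvd]
    ring
  have hYi : ∀ (i : Fin n), HasFDerivAt (fun y => (Y y) i)
        ((EuclideanSpace.proj (𝕜 := ℝ) i : E n →L[ℝ] ℝ).comp (fderiv ℝ Y x)) x := fun i =>
      (EuclideanSpace.proj (𝕜 := ℝ) i : E n →L[ℝ] ℝ).hasFDerivAt.comp x hYd.hasFDerivAt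
  have huf : ∀ (i : Fin n), fderiv ℝ (fun y => (Real.exp (-f y) * vol g y) * (Y y) i) x (ee i) =
      (Real.exp (-f x) * vol g x) * (fderiv ℝ Y x (ee i)) i +
        (Y x) i * fderiv ℝ (fun y => Real.exp (-f y) * vol g y) x (ee i) := by
    intro i
    rw [fderiv_fun_mul hw1.differentiableAt (hYi i).differentiableAt, (hYi i).fderiv]
    simp
  have h1 : ∑ i, (Y x) i * fderiv ℝ (fun y => Real.exp (-f y) * vol g y) x (ee i) =
      fderiv ℝ (fun y => Real.exp (-f y) * vol g y) x (Y x) := by
    conv_rhs => rw [← sum_ee (Y x)]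
    rw [map_sum]
    exact Finset.sum_congr rfl fun i _ => by rw [map_smul, smul_eq_mul]
  simp only [huf]
  rw [Finset.sum_add_distrib, h1, hwf, ← Finset.mul_sum]
  have h2 : ∑ i, (cX Γ Y x (ee i)) i =
      ∑ i, (fderiv ℝ Y x (ee i)) i + ∑ i, (Γ x (Y x) (ee i)) i := by
    rw [← Finset.sum_add_distrib]
    refine Finset.sum_congr rfl fun i _ => ?_
    unfold cX
    rw [hsym x (Y x) (ee i)]
    simp
  unfold dvf
  rw [h2]
  ring

/-- The weighted divergence in divergence form. -/
theorem hDlf (hChr : StChr) (hShp : StShp) (hDlv : StDlv) : StDlf := by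
  intro n g Γ hg hΓ f hf θ hθ x
  obtain ⟨h1, h2, h3, -, h5, h6⟩ := hShp n g Γ hg hΓ
  have hfd : Differentiable ℝ f := hf.differentiable (by simp)
  have hX : ContDiff ℝ 1 (fun y => shp g y (θ y)) := h5 θ hθ
  -- components of the sharp
  have hcomp : ∀ (y : E n) (a : Dl n) (i : Fin n),
      (shp g y a) i = ∑ j, gi g y i j * a (ee j) := by
    intro y a i
    unfold shp
    exact comp_ee _ i
  have hinv : ∀ (z : E n) (i : Fin n), ∑ j, gi g x i j * g x z (ee j) = z i := by
    intro z i
    have hz : shp g x (g x z) = z := by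
      by_contra hne
      have hpos := hg.pos x (shp g x (g x z) - z) (sub_ne_zero.2 hne)
      have hv : ∀ v, g x (shp g x (g x z) - z) v = 0 := by
        intro v
        rw [map_sub (g x), sub_apply, h1]
        ring
      have : g x (shp g x (g x z) - z) (shp g x (g x z) - z) = 0 := hv _
      rw [this] at hpos
      exact lt_irrefl _ hpos
    rw [← hcomp x (g x z) i, hz]
  have htr : trg g x (cf Γ θ x) = ∑ i, (cX Γ (fun y => shp g y (θ y)) x (ee i)) i := by
    unfold trg
    refine Finset.sum_congr rfl fun i _ => ?_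
    rw [← hinv (cX Γ (fun y => shp g y (θ y)) x (ee i)) i]
    refine Finset.sum_congr rfl fun j _ => ?_
    congr 1
    rw [← h6 θ hθ x (ee i) (ee j)]
    unfold cX
    simp
  have hdl : dl g Γ f θ x = dvf Γ f (fun y => shp g y (θ y)) x := by
    unfold dl dvf
    rw [htr, h2]
  rw [hdl, dvf_eq hChr hDlv g Γ hg hΓ f hfd _ hX x]
  refine Finset.sum_congr rfl fun i _ => ?_
  have hvs := (hDlv n g Γ hg hΓ).1
  have hterm : ∀ j : Fin n, DifferentiableAt ℝ
      (fun y => (Real.exp (-f y) * vol g y * gi g y i j) * θ y (ee j)) x := by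
    intro j
    have a1 : DifferentiableAt ℝ (fun y => Real.exp (-f y)) x := (hfd x).neg.exp
    have a2 : DifferentiableAt ℝ (vol g) x := (hvs.differentiable (by simp)) x
    have a3 : DifferentiableAt ℝ (fun y => gi g y i j) x := ((h3 i j).differentiable (by simp)) x
    have a4 : DifferentiableAt ℝ (fun y => θ y (ee j)) x :=
      ((hθ.differentiable one_ne_zero) x).clm_apply (differentiableAt_const _)
    exact ((a1.mul a2).mul a3).mul a4
  have hfun : (fun y => (Real.exp (-f y) * vol g y) * (shp g y (θ y)) i) =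
      fun y => ∑ j, (Real.exp (-f y) * vol g y * gi g y i j) * θ y (ee j) := by
    funext y
    rw [hcomp, Finset.mul_sum]
    exact Finset.sum_congr rfl fun j _ => by ring
  rw [hfun, fderiv_fun_sum (fun j _ => hterm j)]
  simp

end Pool.Agent.Helper95.LH.DLF
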