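import Pool.Agent.Helper62.LH.StV

/-!
# Project LH, module NA: the connection is metric for covectors
-/

set_option autoImplicit false

open Set Filter Topology MeasureTheory

noncomputable section

namespace Pool.Agent.Helper95.LH

open Helper62.LH

theorem cB_apply {n : ℕ} (Γ : E n → Bm n) (θ : E n → Dl n) (x w v : E n) :
    cB Γ θ x w v = fderiv ℝ θ x w v - θ x (Γ x w v) := by
  unfold cB
  simp

/-- The connection is metric for covectors. -/
theorem hNa (hShp : StShp) : StNa := by
  intro n g Γ hg hΓ ζ η hζ hη x w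
  obtain ⟨h1, h2, -, -, h5, h6⟩ := hShp n g Γ hg hΓ
  have hY : ContDiff ℝ 1 (fun y => shp g y (η y)) := h5 η hη
  have hYd : DifferentiableAt ℝ (fun y => shp g y (η y)) x :=
    (hY.differentiable one_ne_zero) x
  have hζd : DifferentiableAt ℝ ζ x := (hζ.differentiable one_ne_zero) x
  have hfun : (fun y => ip g y (ζ y) (η y)) = fun y => (ζ y) (shp g y (η y)) := by
    funext y
    exact h2 y (ζ y) (η y)
  have hder : fderiv ℝ (fun y => (ζ y) (shp g y (η y))) x w =
      ζ x (fderiv ℝ (fun y => shp g y (η y)) x w) + fderiv ℝ ζ x w (shp g x (η x)) := by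
    rw [fderiv_clm_apply hζd hYd]
    simp
  have hsh : shp g x (cB Γ η x w) =
      fderiv ℝ (fun y => shp g y (η y)) x w + Γ x w (shp g x (η x)) := by
    by_contra hne
    have hpos := hg.pos x (shp g x (cB Γ η x w) -
      (fderiv ℝ (fun y => shp g y (η y)) x w + Γ x w (shp g x (η x)))) (sub_ne_zero.2 hne)
    have hall : ∀ v, g x (shp g x (cB Γ η x w) -
        (fderiv ℝ (fun y => shp g y (η y)) x w + Γ x w (shp g x (η x)))) v = 0 := by
      intro v
      have e1 := h1 x (cB Γ η x w) v
      have e2 := h6 η hη x w v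
      rw [map_sub, ContinuousLinearMap.sub_apply, e1, e2, cB_apply]
      unfold cf
      ring
    rw [hall] at hpos
    exact lt_irrefl _ hpos
  rw [hfun, hder, h2, h2, hsh, map_add, cB_apply]
  ring

end Pool.Agent.Helper95.LH
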